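import Pool.Agent.W2helper78.KW.Stm

/-!
# KW-3: area of the truncated Voronoi cell with defect; the sum over the packing
-/

set_option autoImplicit false

open MeasureTheory Real

namespace Pool.Agent.W2helper88.KW

open Pool.Agent.W2helper78.KW

theorem th_nonneg (x y : ℂ) : 0 ≤ th x y := by
  unfold th
  have := arccos_nonneg (√3 / 2 * ‖y - x‖)
  linarith

theorem th_le {x y : ℂ} (h : 1 ≤ ‖y - x‖) : th x y ≤ π / 3 := by
  unfold th
  have h0 := sqrt_nonneg 3
  have h1 : √3 / 2 ≤ √3 / 2 * ‖y - x‖ := by nlinarith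
  have h2 := antitone_arccos h1
  have h3 : arccos (√3 / 2) = π / 6 := by
    rw [← cos_pi_div_six]
    exact arccos_cos (by positivity) (by linarith [pi_pos])
  rw [h3] at h2
  linarith

/-- the concavity inequality -/
theorem sin_ge {t : ℝ} (h0 : 0 ≤ t) (h1 : t ≤ π / 3) :
    3 * √3 / (2 * π) * t + 3 / π * (1 - √3 / 2) * min t (π / 3 - t) ≤ sin t := by
  have hpi := pi_pos
  have hc := strictConcaveOn_sin_Icc.concaveOn
  rcases le_total t (π / 6) with h | h
  · have h2 := hc.2 (show (0:ℝ) ∈ Set.Icc 0 π from ⟨le_rfl, hpi.le⟩)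
      (show π / 6 ∈ Set.Icc 0 π from ⟨by positivity, by linarith⟩)
      (show 0 ≤ 1 - 6 * t / π by
        rw [sub_nonneg, div_le_one hpi]; linarith) (show 0 ≤ 6 * t / π by positivity) (by ring)
    simp only [smul_eq_mul, sin_zero, sin_pi_div_six, mul_zero, zero_add] at h2
    have h3 : 6 * t / π * (π / 6) = t := by field_simp
    rw [h3] at h2
    rw [min_eq_left (by linarith)]
    refine le_trans (le_of_eq ?_) h2
    field_simp
    ring
  · have h2 := hc.2 (show π / 6 ∈ Set.Icc 0 π from ⟨by positivity, by linarith⟩)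
      (show π / 3 ∈ Set.Icc 0 π from ⟨by positivity, by linarith⟩)
      (show 0 ≤ 2 - 6 * t / π by
        rw [sub_nonneg, div_le_iff₀ hpi]; linarith) (show 0 ≤ 6 * t / π - 1 by
        rw [sub_nonneg, le_div_iff₀ hpi]; linarith) (by ring)
    simp only [smul_eq_mul, sin_pi_div_six, sin_pi_div_three] at h2
    have h3 : (2 - 6 * t / π) * (π / 6) + (6 * t / π - 1) * (π / 3) = t := by field_simp; ring
    rw [h3] at h2
    rw [min_eq_right (by linarith)]
    refine le_trans (le_of_eq ?_) h2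
    field_simp
    ring

theorem sqrt3_lt : √3 < 1.7321 := by
  rw [sqrt_lt' (by norm_num)]
  norm_num

theorem k_le : 3 * √3 / (2 * π) ≤ 88 / 100 := by
  rw [div_le_iff₀ (by positivity)]
  have := sqrt3_lt
  have := pi_gt_d2
  nlinarith

theorem c_ge : 12 / 100 ≤ 3 / π * (1 - √3 / 2) := by
  rw [div_mul_eq_mul_div, le_div_iff₀ pi_pos]
  have := sqrt3_lt
  have := pi_lt_d2
  nlinarith

theorem ball_sub (P : Finset ℂ) (x : ℂ) : Metric.ball x (1 / √3) ⊆
    cell P x ∪ ⋃ y ∈ P.erase x, {p : ℂ | ‖p - x‖ < 1 / √3 ∧ ‖p - y‖ ≤ ‖p - x‖} := by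
  intro p hp
  rw [mem_ball_iff_norm] at hp
  by_cases h : ∀ y ∈ P, y ≠ x → ‖p - x‖ < ‖p - y‖
  · exact Or.inl ⟨hp, h⟩
  · push Not at h
    obtain ⟨y, hy, hyx, h1⟩ := h
    right
    simp only [Set.mem_iUnion]
    exact ⟨y, Finset.mem_erase.2 ⟨hyx, hy⟩, hp, h1⟩

theorem cell_sub (P : Finset ℂ) (x : ℂ) : cell P x ⊆ Metric.ball x (1 / √3) := fun p hp => by
  rw [mem_ball_iff_norm]
  exact hp.1

theorem vol_ball (x : ℂ) : volume.real (Metric.ball x (1 / √3)) = π / 3 := by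
  rw [Measure.real, Complex.volume_ball, ENNReal.toReal_mul, ENNReal.toReal_pow,
    ENNReal.toReal_ofReal (by positivity), div_pow, sq_sqrt (by norm_num)]
  simp
  ring

theorem area (hcap : CapStm) (harc : ArcStm) : AreaStm := by
  intro P x hP hx
  have hd : ∀ y ∈ P.erase x, 1 ≤ ‖y - x‖ := fun y hy =>
    hP y (Finset.mem_erase.1 hy).2 x hx (Finset.mem_erase.1 hy).1
  have h2pi := harc P x hP hx
  have hmin : ∀ y ∈ P.erase x, 0 ≤ min (th x y) (π / 3 - th x y) := fun y hy =>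
    le_min (th_nonneg x y) (by linarith [th_le (hd y hy)])
  have hminS : 0 ≤ ∑ y ∈ P.erase x, min (th x y) (π / 3 - th x y) := Finset.sum_nonneg hmin
  refine ⟨by unfold D; linarith, ?_⟩
  have hfin : ∀ s : Set ℂ, s ⊆ Metric.ball x (1 / √3) → volume s ≠ ⊤ := fun s hs =>
    ((measure_mono hs).trans_lt measure_ball_lt_top).ne
  have h1 : π / 3 ≤ volume.real (cell P x) + ∑ y ∈ P.erase x, (th x y - sin (th x y)) / 6 := by
    rw [← vol_ball x]
    have e1 : (⋃ y ∈ P.erase x, {p : ℂ | ‖p - x‖ < 1 / √3 ∧ ‖p - y‖ ≤ ‖p - x‖}) ⊆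
        Metric.ball x (1 / √3) := by
      intro p hp
      simp only [Set.mem_iUnion] at hp
      obtain ⟨y, _, h, _⟩ := hp
      rw [mem_ball_iff_norm]
      exact h
    calc volume.real (Metric.ball x (1 / √3))
        ≤ volume.real (cell P x ∪ ⋃ y ∈ P.erase x, {p : ℂ | ‖p - x‖ < 1 / √3 ∧ ‖p - y‖ ≤ ‖p - x‖}) :=
          measureReal_mono (ball_sub P x) (hfin _ (Set.union_subset (cell_sub P x) e1))
      _ ≤ volume.real (cell P x) +
          volume.real (⋃ y ∈ P.erase x, {p : ℂ | ‖p - x‖ < 1 / √3 ∧ ‖p - y‖ ≤ ‖p - x‖}) :=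
          measureReal_union_le _ _
      _ ≤ volume.real (cell P x) +
          ∑ y ∈ P.erase x, volume.real {p : ℂ | ‖p - x‖ < 1 / √3 ∧ ‖p - y‖ ≤ ‖p - x‖} := by
          gcongr
          exact measureReal_biUnion_finset_le _ _
      _ ≤ _ := by
          gcongr with y hy
          exact hcap x y (hd y hy)
  have h2 : ∑ y ∈ P.erase x, (3 * √3 / (2 * π) * th x y +
      3 / π * (1 - √3 / 2) * min (th x y) (π / 3 - th x y)) ≤ ∑ y ∈ P.erase x, sin (th x y) :=
    Finset.sum_le_sum fun y hy => sin_ge (th_nonneg x y) (th_le (hd y hy))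
  rw [Finset.sum_add_distrib, ← Finset.mul_sum, ← Finset.mul_sum] at h2
  rw [← Finset.sum_div, Finset.sum_sub_distrib] at h1
  obtain ⟨S, hS⟩ : ∃ S, S = ∑ y ∈ P.erase x, th x y := ⟨_, rfl⟩
  obtain ⟨M, hM⟩ : ∃ M, M = ∑ y ∈ P.erase x, min (th x y) (π / 3 - th x y) := ⟨_, rfl⟩
  obtain ⟨k, hk⟩ : ∃ k, k = 3 * √3 / (2 * π) := ⟨_, rfl⟩
  obtain ⟨c, hc⟩ : ∃ c, c = 3 / π * (1 - √3 / 2) := ⟨_, rfl⟩
  have hk1 := k_le
  have hc1 := c_ge
  have hk2 : 2 * π * k = 3 * √3 := by rw [hk]; field_simp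
  unfold D
  rw [← hS] at h1 h2 h2pi ⊢
  rw [← hM] at h2 hminS ⊢
  rw [← hk] at h2 hk1
  rw [← hc] at h2 hc1
  have h3 : 0 ≤ (88 / 100 - k) * (2 * π - S) := mul_nonneg (by linarith) (by linarith)
  have h4 : 0 ≤ (c - 12 / 100) * M := mul_nonneg (by linarith) hminS
  nlinarith

theorem cell_open (P : Finset ℂ) (x : ℂ) : IsOpen (cell P x) := by
  have h : cell P x = {p : ℂ | ‖p - x‖ < 1 / √3} ∩
      ⋂ y ∈ P.erase x, {p : ℂ | ‖p - x‖ < ‖p - y‖} := by
    ext p
    simp only [cell, Set.mem_ofPred_eq, Set.mem_inter_iff, Set.mem_iInter, Finset.mem_erase]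
    constructor
    · rintro ⟨h1, h2⟩
      exact ⟨h1, fun y hy => h2 y hy.2 hy.1⟩
    · rintro ⟨h1, h2⟩
      exact ⟨h1, fun y hy hyx => h2 y ⟨hyx, hy⟩⟩
  rw [h]
  refine IsOpen.inter (isOpen_lt (by fun_prop) continuous_const)
    (isOpen_biInter_finset fun y _ => isOpen_lt (by fun_prop) (by fun_prop))

theorem vol_box {a b : ℝ} (h : a ≤ b) :
    volume.real {z : ℂ | z.re ∈ Set.Icc a b ∧ z.im ∈ Set.Icc a b} = (b - a) ^ 2 := by
  have h1 : {z : ℂ | z.re ∈ Set.Icc a b ∧ z.im ∈ Set.Icc a b} =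
      Complex.measurableEquivRealProd ⁻¹' (Set.Icc a b ×ˢ Set.Icc a b) := by
    ext z
    simp [Complex.measurableEquivRealProd]
    tauto
  rw [h1, Measure.real, Complex.volume_preserving_equiv_real_prod.measure_preimage
    (measurableSet_Icc.prod measurableSet_Icc).nullMeasurableSet, Measure.volume_eq_prod,
    Measure.prod_prod, Real.volume_Icc, ENNReal.toReal_mul, ENNReal.toReal_ofReal (by linarith)]
  ring

theorem vol_box_lt (a b : ℝ) :
    volume {z : ℂ | z.re ∈ Set.Icc a b ∧ z.im ∈ Set.Icc a b} ≠ ⊤ := by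
  have h1 : {z : ℂ | z.re ∈ Set.Icc a b ∧ z.im ∈ Set.Icc a b} =
      Complex.measurableEquivRealProd ⁻¹' (Set.Icc a b ×ˢ Set.Icc a b) := by
    ext z
    simp [Complex.measurableEquivRealProd]
    tauto
  rw [h1, Complex.volume_preserving_equiv_real_prod.measure_preimage
    (measurableSet_Icc.prod measurableSet_Icc).nullMeasurableSet, Measure.volume_eq_prod,
    Measure.prod_prod, Real.volume_Icc]
  exact ENNReal.mul_ne_top ENNReal.ofReal_ne_top ENNReal.ofReal_ne_top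

theorem summ (harea : AreaStm) : SumStm := by
  intro P L hL hP hbox
  have h1 : ∀ x ∈ P, cell P x ⊆ {z : ℂ | z.re ∈ Set.Icc (-1) (L + 1) ∧ z.im ∈ Set.Icc (-1) (L + 1)} := by
    intro x hx p hp
    have h2 : ‖p - x‖ < 1 := by
      refine hp.1.trans ?_
      rw [div_lt_one (by positivity)]
      exact (lt_sqrt (by norm_num)).2 (by norm_num)
    have h3 := (Complex.abs_re_le_norm (p - x)).trans_lt h2
    have h4 := (Complex.abs_im_le_norm (p - x)).trans_lt h2
    rw [Complex.sub_re, abs_lt] at h3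
    rw [Complex.sub_im, abs_lt] at h4
    obtain ⟨⟨h5, h6⟩, h7, h8⟩ := hbox x hx
    exact ⟨⟨by linarith, by linarith⟩, by linarith, by linarith⟩
  have h2 : ∑ x ∈ P, volume.real (cell P x) = volume.real (⋃ x ∈ P, cell P x) := by
    rw [measureReal_biUnion_finset (h := fun x _ =>
      ((measure_mono (cell_sub P x)).trans_lt measure_ball_lt_top).ne)]
    · intro x hx y hy hxy
      rw [Function.onFun, Set.disjoint_left]
      intro p hp1 hp2
      have h3 := hp1.2 y hy (Ne.symm hxy)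
      have h4 := hp2.2 x hx hxy
      linarith
    · exact fun x _ => (cell_open P x).measurableSet
  have h3 : volume.real (⋃ x ∈ P, cell P x) ≤ (L + 2) ^ 2 := by
    have h4 := measureReal_mono (Set.iUnion₂_subset h1) (vol_box_lt (-1) (L + 1)) (μ := volume)
    rw [vol_box (by linarith)] at h4
    refine h4.trans (le_of_eq ?_)
    ring
  have h4 : ∑ x ∈ P, (√3 / 2 + D P x / 50) ≤ ∑ x ∈ P, volume.real (cell P x) :=
    Finset.sum_le_sum fun x hx => (harea P x hP hx).2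
  rw [Finset.sum_add_distrib, Finset.sum_const, nsmul_eq_mul, ← Finset.sum_div] at h4
  linarith

end Pool.Agent.W2helper88.KW
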